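import Pool.Agent.N662.FP.Stm3

set_option autoImplicit false
open MeasureTheory ProbabilityTheory Filter Set
open scoped ENNReal Pointwise Topology

namespace Pool.Agent.N281.FN

open Pool.Agent.N662.FP

/-- eventually `(2 t) ^ (1 - κ2) ≤ t ^ (1 - κ) - C` -/
theorem ev_pow (C κ κ2 : ℝ) (h1 : κ < κ2) (h2 : κ2 < 1) (h0 : 0 < κ) :
    ∀ᶠ t : ℝ in atTop, (2 * t) ^ (1 - κ2) ≤ t ^ (1 - κ) - C := by
  have e1 : ∀ᶠ t : ℝ in atTop, 3 ≤ t ^ (κ2 - κ) :=
    (tendsto_rpow_atTop (by linarith : 0 < κ2 - κ)).eventually_ge_atTop 3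
  have e2 : ∀ᶠ t : ℝ in atTop, C ≤ t ^ (1 - κ2) :=
    (tendsto_rpow_atTop (by linarith : 0 < 1 - κ2)).eventually_ge_atTop C
  filter_upwards [e1, e2, eventually_ge_atTop (1 : ℝ)] with t h3 h4 ht
  have ht0 : 0 < t := by linarith
  have hb : 0 ≤ t ^ (1 - κ2) := Real.rpow_nonneg ht0.le _
  have e3 : t ^ (1 - κ) = t ^ (κ2 - κ) * t ^ (1 - κ2) := by
    rw [← Real.rpow_add ht0]; congr 1; ring
  have e4 : (2 * t) ^ (1 - κ2) = 2 ^ (1 - κ2) * t ^ (1 - κ2) :=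
    Real.mul_rpow (by norm_num) ht0.le
  have e5 : (2 : ℝ) ^ (1 - κ2) ≤ 2 := by
    calc (2 : ℝ) ^ (1 - κ2) ≤ (2 : ℝ) ^ (1 : ℝ) :=
          Real.rpow_le_rpow_of_exponent_le (by norm_num) (by linarith)
      _ = 2 := Real.rpow_one 2
  rw [e3, e4]
  nlinarith [mul_le_mul_of_nonneg_right e5 hb, mul_le_mul_of_nonneg_right h3 hb]

/-- from point-to-point to the outer event -/
theorem t_OUT3 (h1 : S_OUT1) (h2 : S_AE) : S_OUT3 := by
  intro Ω _ _ X hX μ hμ κ κ2 q hκ hκ2 hκ1 hq hPP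
  obtain ⟨C, K, hC, hK, hF⟩ := h1 μ hμ
  obtain ⟨C1, hC1⟩ := hPP
  refine Asymptotics.IsBigO.of_bound (K * |C1|) ?_
  filter_upwards [ev_pow C κ κ2 hκ2 hκ1 hκ, eventually_ge_atTop (1 : ℝ),
    eventually_ge_atTop C] with t ht ht1 htC
  obtain ⟨F, hcard, hFμ, hFw⟩ := hF κ t hκ ht1 htC
  have ht0 : 0 < t := by linarith
  have hsub : (volume : Measure Ω) (Out (fun ω v => D (env X ω) 0 v) μ κ t) ≤
      (volume : Measure Ω)
        (⋃ v ∈ F, {ω | D (env X ω) 0 v ≤ μ (em v) - (2 * t) ^ (1 - κ2)}) := by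
    apply measure_mono_ae
    filter_upwards [h2 Ω X hX] with ω hω hmem
    obtain ⟨v, hv, hv2⟩ := hFw (env X ω) hω hmem
    refine Set.mem_iUnion₂.2 ⟨v, hv, ?_⟩
    change D (env X ω) 0 v ≤ μ (em v) - (2 * t) ^ (1 - κ2)
    linarith
  have hreal : (volume : Measure Ω).real (Out (fun ω v => D (env X ω) 0 v) μ κ t) ≤
      (volume : Measure Ω).real
        (⋃ v ∈ F, {ω | D (env X ω) 0 v ≤ μ (em v) - (2 * t) ^ (1 - κ2)}) :=
    ENNReal.toReal_mono (measure_ne_top _ _) hsub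
  have hsum : (volume : Measure Ω).real
        (⋃ v ∈ F, {ω | D (env X ω) 0 v ≤ μ (em v) - (2 * t) ^ (1 - κ2)}) ≤
      ∑ v ∈ F, (volume : Measure Ω).real
        {ω | D (env X ω) 0 v ≤ μ (em v) - (2 * t) ^ (1 - κ2)} :=
    measureReal_biUnion_finset_le F _
  have hterm : ∀ v ∈ F, (volume : Measure Ω).real
      {ω | D (env X ω) 0 v ≤ μ (em v) - (2 * t) ^ (1 - κ2)} ≤ |C1| * t ^ (-(q + 2)) := by
    intro v hv
    have h3 := hC1 (2 * t) (by linarith) v (hFμ v hv)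
    calc _ ≤ C1 * (2 * t) ^ (-(q + 2)) := h3
      _ ≤ |C1| * (2 * t) ^ (-(q + 2)) :=
          mul_le_mul_of_nonneg_right (le_abs_self _) (Real.rpow_nonneg (by linarith) _)
      _ ≤ |C1| * t ^ (-(q + 2)) :=
          mul_le_mul_of_nonneg_left
            (Real.rpow_le_rpow_of_nonpos ht0 (by linarith) (by linarith)) (abs_nonneg _)
  have hnn : 0 ≤ |C1| * t ^ (-(q + 2)) := mul_nonneg (abs_nonneg _) (Real.rpow_nonneg ht0.le _)
  have htot : (volume : Measure Ω).real (Out (fun ω v => D (env X ω) 0 v) μ κ t) ≤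
      K * |C1| * t ^ (-q) := by
    calc (volume : Measure Ω).real (Out (fun ω v => D (env X ω) 0 v) μ κ t)
        ≤ ∑ v ∈ F, |C1| * t ^ (-(q + 2)) := hreal.trans (hsum.trans (Finset.sum_le_sum hterm))
      _ = F.card * (|C1| * t ^ (-(q + 2))) := by rw [Finset.sum_const, nsmul_eq_mul]
      _ ≤ K * t ^ 2 * (|C1| * t ^ (-(q + 2))) := mul_le_mul_of_nonneg_right hcard hnn
      _ = K * |C1| * t ^ (-q) := by
        have h4 : t ^ (-q) = t ^ 2 * t ^ (-(q + 2)) := by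
          rw [← Real.rpow_natCast t 2, ← Real.rpow_add ht0]
          congr 1
          push_cast
          ring
        rw [h4]; ring
  rw [Real.norm_of_nonneg measureReal_nonneg, Real.norm_of_nonneg (Real.rpow_nonneg ht0.le _)]
  exact htot

end Pool.Agent.N281.FN
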